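import Pool.Agent.Helper61.HL.Log

set_option autoImplicit false

/-!
# MP_5bfbcb, Q2: the logarithm of a nonzero half-lacunary Fourier series is in some `L^p`

Let `n k` be negative integers with `liminf n (k + 1) / n k > 1` (the lower limit is taken in the
extended reals, so ratios tending to infinity are allowed), let `a : ℤ → ℂ`, and let
`g = ∑ a (n k) e (n k) + ∑_{j ≥ 0} a j e j`, both series converging in `L²(ℝ/ℤ)`
(which is the case when `a` is square summable).  If `g` is not the zero element of `L²`, then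
`log |g|` belongs to `L^p` for some `p > 0`.  The exponent can be chosen as a function of a lower
bound `q > 1` of `liminf n (k + 1) / n k` alone.

In Lean `Real.log 0 = 0`, so the statement also contains the fact that the zero set of `g` is null.

Idea of the proof.  By a shift of the frequencies, a dilation and a passage to the limit it is
enough to prove `|{|g| ≤ e ^ (-u)}| ≤ C u ^ (-p)` for Laurent polynomials with negative frequencies
`- m k`, `m (k + 1) ≥ q m k` for all `k`, with `C` depending only on a lower bound for one of the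
coefficients.  For scales `b` and indices `k < l` let `f_{k,l,b}` be the polynomial `g`, truncated
at the frequency `- m k` from below, after the frequencies with index in `(k, l]` were removed
by the multipliers `F ↦ (F(z) - e^{-ε} F(e^{-ε/m} z)) / (1 - e^{-ε})`, `ε = b^{-2}`, and
evaluated on the circle `|z| = e^{-A / m k}`.  The positive part of the maximum of
`- log |f_{k,l,b}|` is compared for consecutive states: the maximum principle with a Poisson
majorant and Harnack's inequality for circles of slightly different radii give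
`E_w [min(Y', b)] ≤ Y(w) + o(b)`, where `E_w` is harmonic measure seen from `w`; if the truncation
level does not change one gains by Jensen's inequality, applied to a pointwise unitary rotation
which removes the lowest frequency, and if it changes by Jensen's inequality at the largest
coefficient.  In both cases the square root of the truncated quantity contracts, and the
contraction over geometrically growing scales `b` gives the power bound.
-/

open MeasureTheory Filter

namespace Pool.Agent.Results.MP_5bfbcb_an.LogIntegrability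

/-- **Log-integrability of half-lacunary Fourier series.**  First part (this is Q2, with a positive
answer): for every half-lacunary Fourier series `g = g₁ + g₂` in `L²(ℝ/ℤ)` (negative frequencies
`n k` in a Hadamard lacunary sequence, arbitrary nonnegative frequencies) which is not identically
zero there is `p > 0` such that `log |g|` is in `L^p`; its zero set is null.  Second part: `p` can
be chosen depending only on a lower bound `q > 1` for `liminf n (k + 1) / n k`. -/
theorem result :
    (∀ (n : ℕ → ℤ), (∀ k, n k < 0) →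
      1 < liminf (fun k => (((n (k + 1) : ℝ) / (n k : ℝ) : ℝ) : EReal)) atTop →
      ∀ (a : ℤ → ℂ)
        (g₁ g₂ : Lp ℂ 2 (AddCircle.haarAddCircle : Measure (AddCircle (1 : ℝ)))),
        HasSum (fun k : ℕ => a (n k) • fourierLp 2 (n k)) g₁ →
        HasSum (fun j : ℕ => a (j : ℤ) • fourierLp 2 (j : ℤ)) g₂ →
        g₁ + g₂ ≠ 0 →
        ∃ p : ℝ, 0 < p ∧
          (AddCircle.haarAddCircle : Measure (AddCircle (1 : ℝ)))
            {θ : AddCircle (1 : ℝ) | (g₁ + g₂ : Lp ℂ 2 AddCircle.haarAddCircle) θ = 0} = 0 ∧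
          MemLp (fun θ : AddCircle (1 : ℝ) =>
              Real.log ‖(g₁ + g₂ : Lp ℂ 2 AddCircle.haarAddCircle) θ‖)
            (ENNReal.ofReal p) (AddCircle.haarAddCircle : Measure (AddCircle (1 : ℝ)))) ∧
    (∀ q : ℝ, 1 < q → ∃ p : ℝ, 0 < p ∧
      ∀ (n : ℕ → ℤ), (∀ k, n k < 0) →
      (q : EReal) < liminf (fun k => (((n (k + 1) : ℝ) / (n k : ℝ) : ℝ) : EReal)) atTop →
      ∀ (a : ℤ → ℂ)
        (g₁ g₂ : Lp ℂ 2 (AddCircle.haarAddCircle : Measure (AddCircle (1 : ℝ)))),
        HasSum (fun k : ℕ => a (n k) • fourierLp 2 (n k)) g₁ →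
        HasSum (fun j : ℕ => a (j : ℤ) • fourierLp 2 (j : ℤ)) g₂ →
        g₁ + g₂ ≠ 0 →
          (AddCircle.haarAddCircle : Measure (AddCircle (1 : ℝ)))
            {θ : AddCircle (1 : ℝ) | (g₁ + g₂ : Lp ℂ 2 AddCircle.haarAddCircle) θ = 0} = 0 ∧
          MemLp (fun θ : AddCircle (1 : ℝ) =>
              Real.log ‖(g₁ + g₂ : Lp ℂ 2 AddCircle.haarAddCircle) θ‖)
            (ENNReal.ofReal p) (AddCircle.haarAddCircle : Measure (AddCircle (1 : ℝ)))) := by
  have key : ∀ q : ℝ, 1 < q → ∃ p : ℝ, 0 < p ∧
      ∀ (n : ℕ → ℤ), (∀ k, n k < 0) →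
      (q : EReal) < liminf (fun k => (((n (k + 1) : ℝ) / (n k : ℝ) : ℝ) : EReal)) atTop →
      ∀ (a : ℤ → ℂ)
        (g₁ g₂ : Lp ℂ 2 (AddCircle.haarAddCircle : Measure (AddCircle (1 : ℝ)))),
        HasSum (fun k : ℕ => a (n k) • fourierLp 2 (n k)) g₁ →
        HasSum (fun j : ℕ => a (j : ℤ) • fourierLp 2 (j : ℤ)) g₂ →
        g₁ + g₂ ≠ 0 →
          (AddCircle.haarAddCircle : Measure (AddCircle (1 : ℝ)))
            {θ : AddCircle (1 : ℝ) | (g₁ + g₂ : Lp ℂ 2 AddCircle.haarAddCircle) θ = 0} = 0 ∧
          MemLp (fun θ : AddCircle (1 : ℝ) =>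
              Real.log ‖(g₁ + g₂ : Lp ℂ 2 AddCircle.haarAddCircle) θ‖)
            (ENNReal.ofReal p) (AddCircle.haarAddCircle : Measure (AddCircle (1 : ℝ))) := by
    intro q hq
    obtain ⟨p, hp, hmain⟩ := Pool.Agent.Helper61.HL.log_integrable hq
    refine ⟨p, hp, fun n hneg hlac a g₁ g₂ h₁ h₂ hg => ?_⟩
    refine hmain n hneg ?_ (g₁ + g₂) ?_ hg
    · filter_upwards [eventually_lt_of_lt_liminf hlac] with k hk
      exact (EReal.coe_lt_coe_iff.mp hk).le
    · intro j hj hjn
      have e1 : fourierCoeff g₁ j = 0 := Pool.Agent.Helper61.HL.coeff_eq_zero h₁ hjn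
      have e2 : fourierCoeff g₂ j = 0 :=
        Pool.Agent.Helper61.HL.coeff_eq_zero (n := fun i : ℕ => (i : ℤ))
          (b := fun i => a i) h₂ fun k => by omega
      rw [← Pool.Agent.Helper61.HL.inner_fourier] at e1 e2 ⊢
      rw [map_add, e1, e2, add_zero]
  refine ⟨fun n hneg hlac a g₁ g₂ h₁ h₂ hg => ?_, key⟩
  obtain ⟨y, hy1, hy2⟩ := exists_between hlac
  have hy3 : y ≠ ⊤ := (hy2.trans_le le_top).ne
  have hy4 : y ≠ ⊥ := (bot_lt_iff_ne_bot.mp ((EReal.bot_lt_coe 1).trans hy1))
  lift y to ℝ using ⟨hy3, hy4⟩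
  have hy5 : (1 : ℝ) < y := by exact_mod_cast hy1
  obtain ⟨p, hp, hmain⟩ := key y hy5
  exact ⟨p, hp, hmain n hneg hy2 a g₁ g₂ h₁ h₂ hg⟩

end Pool.Agent.Results.MP_5bfbcb_an.LogIntegrability
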